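import Pool.Agent.Helper20.RL.St4

/-!
# Module PCB of project RL (MP_cb927e_an): level sets of the number of typical directions
-/

set_option autoImplicit false

open MeasureTheory Set Filter Topology
open scoped ENNReal RealInnerProductSpace

namespace Pool.Agent.Helper90.RL

open Pool.Agent.Helper68.LM (Pl BB Bd Av HL ft fm DQ)
open Pool.Agent.Helper20.RG Pool.Agent.Helper20.RL

/-- the widths of rich cells are small -/
theorem pcb_B (hLGR : StLGR) (F : Set Pl) (s D θ : ℝ) (B : ℤ) (z : Pl) (hs : |s| ≤ 1)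
    (hCtl : Ctl D F) (hD : 0 < D) (hθ : 1000 * D ≤ θ) (hR : 0 ≤ B → Rich F s B B (θ / 2) z) :
    B < 0 := by
  by_contra hcon
  have hB : 0 ≤ B := not_lt.mp hcon
  have h1 := hR hB
  unfold Rich at h1
  have hsub : RQ s B B z ⊆ Sq z ((2 : ℝ) ^ (B.toNat + 1)) := by
    intro y hy
    obtain ⟨h2, h3, h4⟩ := hLGR.2.2.2.1 s B B z y hs hy
    have h5 : (2 : ℝ) ^ (B.toNat + 1) = (2 : ℝ) ^ B + (2 : ℝ) ^ B := by
      have h6 : (2 : ℝ) ^ B = (2 : ℝ) ^ B.toNat := by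
        rw [← zpow_natCast, Int.toNat_of_nonneg hB]
      rw [h6, pow_succ]
      ring
    have h7 : (0 : ℝ) < (2 : ℝ) ^ B := by positivity
    rw [h5]
    exact ⟨by linarith, h4.le⟩
  have h8 : ENNReal.ofReal (θ / 2 * (2 : ℝ) ^ (B + B)) ≤
      ENNReal.ofReal (D * (4 : ℝ) ^ (B.toNat + 1)) :=
    h1.trans ((measure_mono (inter_subset_inter_right F hsub)).trans (hCtl z (B.toNat + 1)))
  have h9 := (ENNReal.ofReal_le_ofReal_iff (by positivity)).mp h8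
  have h10 : (2 : ℝ) ^ (B + B) = (4 : ℝ) ^ B.toNat := by
    have h6 : (2 : ℝ) ^ B = (2 : ℝ) ^ B.toNat := by
      rw [← zpow_natCast, Int.toNat_of_nonneg hB]
    rw [zpow_add₀ (by norm_num), h6, ← mul_pow]
    norm_num
  rw [h10, pow_succ] at h9
  have h11 : (0 : ℝ) < (4 : ℝ) ^ B.toNat := by positivity
  nlinarith

theorem pcb_om (u b i : ℕ) (hb : 1 ≤ b) : om u (b - 1) (16 * u - i) ≤ om u b 0 := by
  unfold om
  obtain ⟨b', rfl⟩ : ∃ b', b = b' + 1 := ⟨b - 1, by omega⟩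
  have h1 : 16 * u - i ≤ 16 * u := Nat.sub_le _ _
  have h2 : 64 * u * (16 * u - i) ≤ 64 * u * (16 * u) := Nat.mul_le_mul_left _ h1
  have h3 : 2 ^ (b' + 1) * (1024 * u ^ 2 + 64 * u * 0) = 2 ^ b' * (1024 * u ^ 2 + 64 * u * (16 * u)) := by
    ring
  rw [h3, Nat.add_sub_cancel]
  exact Nat.mul_le_mul_left _ (by omega)

/-- module PCB -/
theorem hPCB (_hPT : StPT) (hLGR : StLGR) (hPRD : StPRD) (hPRT : StPRT) : StPCB := by
  obtain ⟨C₃, hC₃, H⟩ := hPRT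
  refine ⟨C₃, hC₃, ?_⟩
  intro u b A σ s F D θ m V Af Bf hu hb hA hSlo hF hCtl hD hθ hV hm1 hm2 hm3
  have hθ0 : 0 < θ := by linarith
  have e1 : 5376 * 2 ^ u * D / (θ / 2) = 10752 * 2 ^ u * D / θ := by
    field_simp
    norm_num
  have e2 : 21 / (θ / 2) = 42 / θ := by
    field_simp
    norm_num
  have hZ : ∀ j < 2 ^ u, |((fun _ => (0 : Pl)) j) 0| ≤ (2 : ℝ) ^ ((0 : ℤ) + (u : ℤ)) ∧
      |((fun _ => (0 : Pl)) j) 1| ≤ (2 : ℝ) ^ ((0 : ℤ) + (u : ℤ)) ∧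
      Fml F (s j) θ (V j) (Af j) (Bf j) ∧ Ty F (s j) θ (V j) (Af j) (Bf j) ⊆ V j ∧
      ∀ z ∈ Ty F (s j) θ (V j) (Af j) (Bf j), ∀ i < 16 * u,
        (0 : ℤ) + (om u (b - 1) (16 * u - i) : ℤ) ≤ Af j z ∧
        Bf j z ≤ (0 : ℤ) + (om u (b - 1) (16 * u - i) : ℤ) ∧
        Rich F (s j) ((0 : ℤ) + (om u (b - 1) (16 * u - i) : ℤ)) (Bf j z) (θ / 2) z := by
    intro j hj
    obtain ⟨hFml, hVz⟩ := hV j hj
    refine ⟨?_, ?_, hFml, fun z hz => hz.2.1, ?_⟩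
    · simp
    · simp
    · intro z hz i _
      have hzV : z ∈ V j := hz.2.1
      have hzR := hz.2.2
      obtain ⟨h1, h2⟩ := hVz z hzV
      have h3 : (om u (b - 1) (16 * u - i) : ℤ) ≤ (om u b 0 : ℤ) := by
        exact_mod_cast pcb_om u b i hb
      have h4 : Bf j z < 0 :=
        pcb_B hLGR F (s j) D θ (Bf j z) z (hSlo.1 j hj) hCtl hD hθ (fun _ => hzR _ h2)
      have h5 : (0 : ℤ) ≤ (om u (b - 1) (16 * u - i) : ℤ) := Int.natCast_nonneg _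
      rw [zero_add]
      refine ⟨h3.trans h1, by linarith, hzR _ (h3.trans h1)⟩
  have hmain := H u b 0 A σ s (fun _ => (0 : Pl)) F D θ (θ / 2) m V
    (fun j => Ty F (s j) θ (V j) (Af j) (Bf j)) Af Bf hu hb le_rfl hA hSlo hF hCtl hD hθ0
    (by positivity) hZ hm1 hm2 (by rw [e1]; exact hm3)
  rw [e1, e2] at hmain
  refine le_trans (measure_mono ?_) hmain
  intro z hz
  rw [Set.mem_ofPred_eq] at hz ⊢
  refine hz.trans ?_
  have hsub : {j : ℕ | j < 2 ^ u ∧ z ∈ Ty F (s j) θ (V j) (Af j) (Bf j)} ⊆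
      {j : ℕ | j < 2 ^ u ∧ ∀ i < 16 * u, z ∈ Rg (s j) ((fun _ => (0 : Pl)) j)
        ((2 : ℝ) ^ ((0 : ℤ) + (om u (b - 1) (16 * u - i) : ℤ) - 1))
        (Ty F (s j) θ (V j) (Af j) (Bf j)) (Bf j)} := by
    intro j hj
    refine ⟨hj.1, fun i _ => ?_⟩
    have h1 := (hPRD.1 (s j) (0 : Pl) ((2 : ℝ) ^ ((0 : ℤ) + (om u (b - 1) (16 * u - i) : ℤ) - 1))
      (Ty F (s j) θ (V j) (Af j) (Bf j)) (Bf j)).2.2 (by positivity) z hj.2
    rw [add_zero] at h1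
    exact h1
  have hfin : {j : ℕ | j < 2 ^ u ∧ ∀ i < 16 * u, z ∈ Rg (s j) ((fun _ => (0 : Pl)) j)
        ((2 : ℝ) ^ ((0 : ℤ) + (om u (b - 1) (16 * u - i) : ℤ) - 1))
        (Ty F (s j) θ (V j) (Af j) (Bf j)) (Bf j)}.Finite :=
    (Set.finite_lt_nat (2 ^ u)).subset (fun j hj => hj.1)
  exact_mod_cast Set.ncard_le_ncard hsub hfin

end Pool.Agent.Helper90.RL
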