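import Pool.Agent.Helper20.RL.St5
import Pool.Agent.Helper79.RG.M_MB

/-!
# Module PE2 of project RL (MP_cb927e_an)
-/

set_option autoImplicit false

open MeasureTheory Set Filter Topology
open scoped ENNReal RealInnerProductSpace

namespace Pool.Agent.Helper90.RL

open Pool.Agent.Helper68.LM (Pl BB Bd Av HL ft fm DQ)
open Pool.Agent.Helper20.RG Pool.Agent.Helper20.RL
open Pool.Agent.Helper79.RG (kap Zh_norm kap_le kap_sub)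

theorem pe2_bounds (hPT : StPT) (hSINC : StSINC) (s : ℝ) (c : Pl) (m m' : ℕ) (ℓ : ℝ) (ξ : Pl)
    (hm : m' ≤ m) (hℓ : 0 < ℓ) :
    0 ≤ ‖Zh s c m m' ℓ ξ‖ / 100 ∧ ‖Zh s c m m' ℓ ξ‖ / 100 ≤ 1 ∧
      ‖Zh s c m m' ℓ ξ‖ / 100 ≤ ‖ξ‖ * (2 : ℝ) ^ (-(m' : ℤ)) ∧
      ‖Zh s c m m' ℓ ξ‖ / 100 * (ℓ * |⟪E s, ξ⟫|) ≤ 1 ∧
      ‖Zh s c m m' ℓ ξ‖ / 100 * (ℓ * |⟪E s, ξ⟫|) ≤ ‖ξ‖ * (2 : ℝ) ^ (-(m' : ℤ)) := by
  obtain ⟨n0, n1, n2, -⟩ := hPT.2.2.1 ξ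
  have hp := Real.pi_pos
  have hp3 := Real.pi_gt_three
  have hp4 := Real.pi_lt_four
  have hA := (hSINC.1 (Real.pi * ℓ * ⟪E s, ξ⟫))
  have hk1 := kap_le hSINC m ξ
  have hk2 := kap_le hSINC m' ξ
  have hdiff : |kap m ξ - kap m' ξ| ≤ 2 := by
    have := abs_sub (kap m ξ) (kap m' ξ)
    linarith
  have hpow : (2 : ℝ) ^ (-(m : ℤ)) ≤ (2 : ℝ) ^ (-(m' : ℤ)) :=
    zpow_le_zpow_right₀ (by norm_num) (by
      have : (m' : ℤ) ≤ m := by exact_mod_cast hm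
      linarith)
  have hpowpos : 0 < (2 : ℝ) ^ (-(m : ℤ)) := by positivity
  have h1 := kap_sub hSINC m ξ
  have h2 := kap_sub hSINC m' ξ
  have h3 : |kap m ξ - kap m' ξ| ≤ |1 - kap m ξ| + |1 - kap m' ξ| := by
    have : kap m ξ - kap m' ξ = (1 - kap m' ξ) - (1 - kap m ξ) := by ring
    rw [this]
    have := abs_sub (1 - kap m' ξ) (1 - kap m ξ)
    linarith
  set t := (2 : ℝ) ^ (-(m : ℤ)) with ht
  set t' := (2 : ℝ) ^ (-(m' : ℤ)) with ht'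
  have ht'pos : 0 < t' := lt_of_lt_of_le hpowpos hpow
  have c1 : 2 * Real.pi * t * |ξ 0| ≤ 2 * Real.pi * t' * ‖ξ‖ := by gcongr
  have c2 : 2 * Real.pi * t * |ξ 1| ≤ 2 * Real.pi * t' * ‖ξ‖ := by gcongr
  have c3 : 2 * Real.pi * t' * |ξ 0| ≤ 2 * Real.pi * t' * ‖ξ‖ := by gcongr
  have c4 : 2 * Real.pi * t' * |ξ 1| ≤ 2 * Real.pi * t' * ‖ξ‖ := by gcongr
  have h4 : |kap m ξ - kap m' ξ| ≤ 8 * Real.pi * t' * ‖ξ‖ := by linarith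
  have hxt : 0 ≤ ‖ξ‖ * t' := by positivity
  have h5 : |kap m ξ - kap m' ξ| ≤ 100 * (‖ξ‖ * t') := by
    refine h4.trans ?_
    nlinarith
  rw [Zh_norm]
  have g1 := hA.2.1
  rw [abs_mul] at g1
  have e : |Real.pi * ℓ * ⟪E s, ξ⟫| = Real.pi * (ℓ * |⟪E s, ξ⟫|) := by
    rw [abs_mul, abs_of_pos (by positivity)]
    ring
  rw [e] at g1
  set a := ℓ * |⟪E s, ξ⟫| with ha
  have ha0 : 0 ≤ a := by positivity
  have hA1 := hA.1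
  set x := |Real.sinc (Real.pi * ℓ * ⟪E s, ξ⟫)| with hx
  have hx0 : 0 ≤ x := abs_nonneg _
  have g2 : x * a ≤ 1 := by nlinarith [mul_nonneg hx0 ha0]
  set d := |kap m ξ - kap m' ξ| with hd
  have hd0 : 0 ≤ d := abs_nonneg _
  have hxd : x * d ≤ 1 * d := mul_le_mul_of_nonneg_right hA1 hd0
  have hxad : x * a * d ≤ 1 * d := mul_le_mul_of_nonneg_right g2 hd0
  have hre : x * d / 100 * a = x * a * d / 100 := by ring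
  refine ⟨by positivity, by linarith, by linarith, ?_, ?_⟩
  · rw [hre]; linarith
  · rw [hre]; linarith

/-- module PE2 -/
theorem hPE2 (hPT : StPT) (hSINC : StSINC) (hU1 : StU1) (hPSP : StPSP) : StPE2 := by
  intro C₀ hC₀
  obtain ⟨C1, hC1, H1⟩ := hU1 C₀ hC₀
  obtain ⟨C2, hC2, H2⟩ := hPSP C₀ hC₀
  refine ⟨100 * C2 + 2 * C1, by positivity, ?_⟩
  intro u s c m m' R K A σ hS W ξ hξ
  have hf : ∀ j < 2 ^ u,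
      0 ≤ ‖Zh (s j) (c j) (m j) (m' j) (1 / (2 : ℝ) ^ u) ξ‖ / 100 ∧
      ‖Zh (s j) (c j) (m j) (m' j) (1 / (2 : ℝ) ^ u) ξ‖ / 100 ≤ 1 ∧
      ‖Zh (s j) (c j) (m j) (m' j) (1 / (2 : ℝ) ^ u) ξ‖ / 100 ≤ ‖ξ‖ * (2 : ℝ) ^ (-(m' j : ℤ)) ∧
      ‖Zh (s j) (c j) (m j) (m' j) (1 / (2 : ℝ) ^ u) ξ‖ / 100 *
        (1 / (2 : ℝ) ^ u * |⟪E (s j), ξ⟫|) ≤ 1 ∧
      ‖Zh (s j) (c j) (m j) (m' j) (1 / (2 : ℝ) ^ u) ξ‖ / 100 *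
        (1 / (2 : ℝ) ^ u * |⟪E (s j), ξ⟫|) ≤ ‖ξ‖ * (2 : ℝ) ^ (-(m' j : ℤ)) := by
    intro j hj
    exact pe2_bounds hPT hSINC _ _ _ _ _ _ (hS.mm j hj).1 (by positivity)
  have h2 := H2 u s c m m' R K A σ hS ξ
    (fun j => ‖Zh (s j) (c j) (m j) (m' j) (1 / (2 : ℝ) ^ u) ξ‖ / 100) hξ hf
  have h1 := H1 u s c m m' R K A σ hS ξ ((2 : ℝ) ^ W) hξ (by positivity)
  have h3 : 1 / Real.sqrt ((2 : ℝ) ^ W) ≤ 1 := by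
    rw [div_le_one (by positivity)]
    rw [Real.one_le_sqrt]
    exact one_le_pow₀ (by norm_num)
  have h4 : C1 * (1 + 1 / Real.sqrt ((2 : ℝ) ^ W)) ≤ 2 * C1 := by nlinarith
  rw [← Finset.sum_div, div_le_iff₀ (by norm_num)] at h2
  have h5 : (1 : ℝ) ≤ ((u : ℝ) + 1) ^ 2 := by
    have : (0 : ℝ) ≤ u := Nat.cast_nonneg u
    nlinarith
  calc ∑ j ∈ Finset.range (2 ^ u), ‖Zh (s j) (c j) (m j) (m' j) (1 / (2 : ℝ) ^ u) ξ -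
          Zh (s j) (c j) (m j) (m' j) ((2 : ℝ) ^ W) ξ‖
      ≤ ∑ j ∈ Finset.range (2 ^ u), (‖Zh (s j) (c j) (m j) (m' j) (1 / (2 : ℝ) ^ u) ξ‖ +
          ‖Zh (s j) (c j) (m j) (m' j) ((2 : ℝ) ^ W) ξ‖) :=
        Finset.sum_le_sum fun j _ => norm_sub_le _ _
    _ = ∑ j ∈ Finset.range (2 ^ u), ‖Zh (s j) (c j) (m j) (m' j) (1 / (2 : ℝ) ^ u) ξ‖ +
          ∑ j ∈ Finset.range (2 ^ u), ‖Zh (s j) (c j) (m j) (m' j) ((2 : ℝ) ^ W) ξ‖ :=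
        Finset.sum_add_distrib
    _ ≤ C2 * ((u : ℝ) + 1) ^ 2 * 100 + 2 * C1 := add_le_add h2 (h1.trans h4)
    _ ≤ (100 * C2 + 2 * C1) * ((u : ℝ) + 1) ^ 2 := by nlinarith

end Pool.Agent.Helper90.RL
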