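import Pool.Agent.Helper20.RL.St3
import Pool.Agent.Helper27.LM.M_HLW

/-!
# Module LRW of project RL (MP_cb927e_an): restricted weak type
-/

set_option autoImplicit false

open MeasureTheory Set Filter Topology
open scoped ENNReal RealInnerProductSpace

namespace Pool.Agent.Helper90.RL

open Pool.Agent.Helper68.LM (Pl BB Bd Av HL ft fm DQ)
open Pool.Agent.Helper20.RG Pool.Agent.Helper20.RL

/-- indicator functions of bounded measurable sets are in `BB` -/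
theorem bb_ind {E : Set Pl} (hE : BM E) : BB (E.indicator (1 : Pl → ℝ)) := by
  obtain ⟨hm, hb⟩ := hE
  refine ⟨measurable_one.indicator hm, ?_⟩
  obtain ⟨r, hr⟩ := hb.subset_closedBall (0 : Pl)
  refine ⟨max 1 r, ?_, ?_⟩
  · intro x
    by_cases hx : x ∈ E
    · rw [indicator_of_mem hx]
      simp
    · rw [indicator_of_notMem hx]
      simp
  · intro x hx
    apply indicator_of_notMem
    intro hxE
    have h1 := hr hxE
    rw [Metric.mem_closedBall, dist_zero_right] at h1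
    exact absurd (lt_of_le_of_lt (le_max_right 1 r) hx) (not_lt.mpr h1)

theorem ind_nonneg (E : Set Pl) (x : Pl) : 0 ≤ E.indicator (1 : Pl → ℝ) x :=
  indicator_nonneg (fun _ _ => zero_le_one) x

theorem arc_univ (c : Pl) (φ : ℝ → ℝ) : arc c φ univ ≤ 1 := by
  unfold arc
  by_cases h : AEMeasurable (fun t : ℝ => c + pt t (φ t)) (volume.restrict (Icc (0 : ℝ) 1))
  · rw [Measure.map_apply_of_aemeasurable h MeasurableSet.univ]
    simp
  · rw [Measure.map_of_not_aemeasurable h]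
    simp

instance arc_fin (c : Pl) (φ : ℝ → ℝ) : IsFiniteMeasure (arc c φ) :=
  ⟨lt_of_le_of_lt (arc_univ c φ) ENNReal.one_lt_top⟩

theorem lint_eq {E : Set Pl} (hE : BM E) (c : Pl) (φ : ℝ → ℝ) (k : ℤ) (x : Pl) :
    ∫⁻ y, E.indicator (1 : Pl → ℝ≥0∞) (x - (2 : ℝ) ^ k • y) ∂(arc c φ) =
      ENNReal.ofReal (Av (arc c φ) ((2 : ℝ) ^ k) (E.indicator (1 : Pl → ℝ)) x) := by
  unfold Av
  have hmap : Measurable (fun y : Pl => x - (2 : ℝ) ^ k • y) := by fun_prop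
  have hmeas : Measurable (fun y : Pl => E.indicator (1 : Pl → ℝ) (x - (2 : ℝ) ^ k • y)) :=
    (measurable_one.indicator hE.1).comp hmap
  have hint : Integrable (fun y : Pl => E.indicator (1 : Pl → ℝ) (x - (2 : ℝ) ^ k • y)) (arc c φ) := by
    refine Integrable.mono' (integrable_const (1 : ℝ)) hmeas.aestronglyMeasurable ?_
    refine Eventually.of_forall fun y => ?_
    by_cases hx : (x - (2 : ℝ) ^ k • y) ∈ E
    · rw [indicator_of_mem hx]; simp
    · rw [indicator_of_notMem hx]; simp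
  rw [ofReal_integral_eq_lintegral_ofReal hint (Eventually.of_forall fun y => ind_nonneg E _)]
  refine lintegral_congr fun y => ?_
  by_cases hx : (x - (2 : ℝ) ^ k • y) ∈ E
  · rw [indicator_of_mem hx, indicator_of_mem hx]; simp
  · rw [indicator_of_notMem hx, indicator_of_notMem hx]; simp

theorem lint_le_one (E : Set Pl) (c : Pl) (φ : ℝ → ℝ) (k : ℤ) (x : Pl) :
    ∫⁻ y, E.indicator (1 : Pl → ℝ≥0∞) (x - (2 : ℝ) ^ k • y) ∂(arc c φ) ≤ 1 := by
  calc ∫⁻ y, E.indicator (1 : Pl → ℝ≥0∞) (x - (2 : ℝ) ^ k • y) ∂(arc c φ)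
      ≤ ∫⁻ _, 1 ∂(arc c φ) := by
        refine lintegral_mono fun y => ?_
        exact indicator_le_self' (fun _ _ => zero_le_one) _
    _ = arc c φ univ := by simp
    _ ≤ 1 := arc_univ c φ

theorem lint_ind {E : Set Pl} (hE : MeasurableSet E) :
    ∫⁻ x, ‖E.indicator (1 : Pl → ℝ) x‖ₑ = volume E := by
  rw [← lintegral_indicator_one hE]
  refine lintegral_congr fun y => ?_
  by_cases hx : y ∈ E
  · rw [indicator_of_mem hx, indicator_of_mem hx]; simp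
  · rw [indicator_of_notMem hx, indicator_of_notMem hx]; simp

/-- bound of `KA` -/
theorem KA_bound (A σ : ℝ) (hA : 0 < A) (hσ : 1 ≤ σ) (v : ℕ) :
    (KA A σ v : ℝ) ≤ (2 + A ^ σ) * (2 : ℝ) ^ (σ * v) := by
  unfold KA
  have h2 : (0 : ℝ) < 2 ^ v := by positivity
  have h0 : 0 ≤ (A * (2 : ℝ) ^ v) ^ σ := by positivity
  have h1 : (⌈(A * (2 : ℝ) ^ v) ^ σ⌉₊ : ℝ) < (A * (2 : ℝ) ^ v) ^ σ + 1 := Nat.ceil_lt_add_one h0
  have h3 : (A * (2 : ℝ) ^ v) ^ σ = A ^ σ * (2 : ℝ) ^ (σ * v) := by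
    rw [Real.mul_rpow hA.le h2.le, ← Real.rpow_natCast, ← Real.rpow_mul (by norm_num), mul_comm σ]
  have h4 : (2 : ℝ) ^ v ≤ (2 : ℝ) ^ (σ * v) := by
    rw [← Real.rpow_natCast]
    apply Real.rpow_le_rpow_of_exponent_le (by norm_num)
    have : (0 : ℝ) ≤ v := Nat.cast_nonneg v
    nlinarith
  have h5 : (v : ℝ) + 1 ≤ 2 ^ v := by
    have := Nat.lt_two_pow_self (n := v)
    exact_mod_cast this
  have h6 : (1 : ℝ) ≤ 2 ^ v := one_le_pow₀ (by norm_num)
  rw [h3] at h1 ⊢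
  push_cast
  nlinarith

/-- choice of the level -/
theorem level (Λ : ℝ) (h0 : 0 < Λ) (h1 : Λ < 1) :
    ∃ u : ℕ, 1 ≤ u ∧ (2 : ℝ) ^ (-(u : ℤ)) ≤ Λ ∧ Λ * (2 : ℝ) ^ u ≤ 2 := by
  obtain ⟨n, hn1, hn2⟩ := exists_nat_pow_near (x := 1 / Λ) (y := (2 : ℝ))
    (by rw [le_div_iff₀ h0]; linarith) (by norm_num)
  refine ⟨n + 1, by omega, ?_, ?_⟩
  · rw [zpow_neg, zpow_natCast]
    rw [div_lt_iff₀ h0] at hn2
    have h2 : (0 : ℝ) < 2 ^ (n + 1) := by positivity
    rw [inv_le_iff_one_le_mul₀ h2]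
    linarith
  · rw [le_div_iff₀ h0] at hn1
    rw [pow_succ]
    nlinarith

/-- the pointwise step -/
theorem step (c : Pl) (φ τ : ℝ → ℝ) (u : ℕ) (E : Set Pl) (hE : BM E) (Λ : ℝ) (hΛ : 0 < Λ) (x : Pl)
    (hdom : ∀ k : ℤ,
      ENNReal.ofReal (Av (arc c φ) ((2 : ℝ) ^ k) (E.indicator 1) x) ≤
        ENNReal.ofReal (4 * Sa c φ τ u k (E.indicator 1) x) +
        4 * ∑' i : ℕ, ‖Sa c φ τ (u + i + 1) k (E.indicator 1) x - Sa c φ τ (u + i) k (E.indicator 1) x‖ₑ)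
    (hhi : ¬ ∃ k : ℤ, ENNReal.ofReal (Λ / 16) <
        ∑' i : ℕ, ‖Sa c φ τ (u + i + 1) k (E.indicator 1) x - Sa c φ τ (u + i) k (E.indicator 1) x‖ₑ)
    (hx : ENNReal.ofReal Λ < ⨆ k : ℤ, ∫⁻ y, E.indicator 1 (x - (2 : ℝ) ^ k • y) ∂(arc c φ)) :
    ∃ k : ℤ, 3 / 16 * Λ < Sa c φ τ u k (E.indicator 1) x := by
  obtain ⟨k, hk⟩ := lt_iSup_iff.mp hx
  refine ⟨k, ?_⟩
  by_contra hcon
  have hcon' := not_lt.mp hcon
  rw [lint_eq hE] at hk
  have h1 : ∑' i : ℕ, ‖Sa c φ τ (u + i + 1) k (E.indicator 1) x - Sa c φ τ (u + i) k (E.indicator 1) x‖ₑ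
      ≤ ENNReal.ofReal (Λ / 16) := by
    by_contra h
    exact hhi ⟨k, not_le.mp h⟩
  have h2 : ENNReal.ofReal (4 * Sa c φ τ u k (E.indicator 1) x) ≤ ENNReal.ofReal (3 / 4 * Λ) :=
    ENNReal.ofReal_le_ofReal (by linarith)
  have h3 : (4 : ℝ≥0∞) * ENNReal.ofReal (Λ / 16) = ENNReal.ofReal (Λ / 4) := by
    rw [show (4 : ℝ≥0∞) = ENNReal.ofReal 4 by simp, ← ENNReal.ofReal_mul (by norm_num)]
    congr 1
    ring
  have h4 : ENNReal.ofReal (3 / 4 * Λ) + ENNReal.ofReal (Λ / 4) = ENNReal.ofReal Λ := by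
    rw [← ENNReal.ofReal_add (by positivity) (by positivity)]
    congr 1
    ring
  have h5 : ENNReal.ofReal (Av (arc c φ) ((2 : ℝ) ^ k) (E.indicator 1) x) ≤ ENNReal.ofReal Λ := by
    calc _ ≤ _ := hdom k
      _ ≤ ENNReal.ofReal (3 / 4 * Λ) + 4 * ENNReal.ofReal (Λ / 16) :=
        add_le_add h2 (mul_le_mul_right h1 4)
      _ = ENNReal.ofReal Λ := by rw [h3, h4]
  exact absurd hk (not_lt.mpr h5)

theorem ofReal_mul_le {a b : ℝ} {v : ℝ≥0∞} (h : a ≤ b) :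
    ENNReal.ofReal a * v ≤ ENNReal.ofReal b * v := by
  gcongr

/-- `2^(qu) ≤ 4 Λ^(-q)` -/
theorem pow_bound (Λ q : ℝ) (u : ℕ) (hΛ : 0 < Λ) (hq : 0 ≤ q) (hq2 : q < 2)
    (hu : Λ * (2 : ℝ) ^ u ≤ 2) : (2 : ℝ) ^ (q * u) ≤ 4 * Λ ^ (-q) := by
  have h1 : (2 : ℝ) ^ (q * u) = ((2 : ℝ) ^ u) ^ q := by
    rw [mul_comm, Real.rpow_mul (by norm_num), Real.rpow_natCast]
  have h2 : (2 : ℝ) ^ u ≤ 2 / Λ := by
    rw [le_div_iff₀ hΛ]; linarith
  have h3 : ((2 : ℝ) ^ u) ^ q ≤ (2 / Λ) ^ q := Real.rpow_le_rpow (by positivity) h2 hq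
  have h4 : (2 / Λ) ^ q = (2 : ℝ) ^ q * Λ ^ (-q) := by
    rw [Real.div_rpow (by norm_num) hΛ.le, Real.rpow_neg hΛ.le]
    ring
  have h5 : (2 : ℝ) ^ q ≤ 4 := by
    calc (2 : ℝ) ^ q ≤ (2 : ℝ) ^ (2 : ℝ) := Real.rpow_le_rpow_of_exponent_le (by norm_num) hq2.le
      _ = 4 := by norm_num
  have h6 : 0 < Λ ^ (-q) := Real.rpow_pos_of_pos hΛ _
  rw [h1]
  calc _ ≤ _ := h3
    _ = _ := h4
    _ ≤ _ := by nlinarith

theorem union4 (S N H L O : Set Pl) (hN : volume N = 0)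
    (h : ∀ x ∈ S, x ∉ N → x ∉ H → x ∉ L → x ∈ O) :
    volume S ≤ volume H + volume L + volume O := by
  have h1 : S ⊆ N ∪ (H ∪ L ∪ O) := by
    intro x hx
    by_cases h1 : x ∈ N
    · exact Or.inl h1
    by_cases h2 : x ∈ H
    · exact Or.inr (Or.inl (Or.inl h2))
    by_cases h3 : x ∈ L
    · exact Or.inr (Or.inl (Or.inr h3))
    exact Or.inr (Or.inr (h x hx h1 h2 h3))
  calc volume S ≤ volume (N ∪ (H ∪ L ∪ O)) := measure_mono h1
    _ ≤ volume N + volume (H ∪ L ∪ O) := measure_union_le _ _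
    _ = volume (H ∪ L ∪ O) := by rw [hN, zero_add]
    _ ≤ volume (H ∪ L) + volume O := measure_union_le _ _
    _ ≤ volume H + volume L + volume O := by gcongr; exact measure_union_le _ _

/-- module LRW -/
theorem hLRW (_hPT : StPT) (_hMEA : StMEA) (_hYB : StYB) (hMM : StMM) (hSYS : StSYS) (hGD : StGD)
    (hDOM : StDOM) (hHLY : StHLY) (hLHI : StLHI) (hLON : StLON) : StLRW := by
  intro hCore φ τ A σ q c hG hGap hA hσ hσq hq2
  have hq0 : 0 < q := by linarith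
  have hσ0 : 0 < σ := by linarith
  set R : ℝ := ‖c‖ + |φ 0| + 3 with hR
  have hR3 : 3 ≤ R := by
    have := norm_nonneg c
    have := abs_nonneg (φ 0)
    linarith
  set Cf : ℝ := R + (2 + A ^ σ) with hCf
  have hAσ : 0 < A ^ σ := Real.rpow_pos_of_pos hA _
  have hCf1 : 1 ≤ Cf := by linarith
  have hRCf : R ≤ Cf := by linarith
  set ρ : ℝ := 2 * (Cf + 10) with hρ
  have hρ0 : 0 < ρ := by linarith
  obtain ⟨u₁, C₁, hC₁, hL⟩ := hLON hCore A σ q Cf hA.le hσ hσq hq2 hCf1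
  obtain ⟨C₂, hC₂, hH⟩ := Pool.Agent.Helper27.LM.hHLW ρ hρ0
  obtain ⟨C₃, hC₃, hI⟩ := hLHI φ τ A σ q c hG hGap hA hσ hσq hq2
  set u₀ : ℕ := max u₁ 1 with hu₀
  have hu₀1 : 1 ≤ u₀ := le_max_right _ _
  set ε : ℝ := ((4 : ℝ) ^ (KA A σ u₀))⁻¹ / 32 with hε
  have hε0 : 0 < ε := by positivity
  refine ⟨4 * C₂ + C₃ + 4 * C₁ + C₂ / ε, by positivity, ?_⟩
  intro Λ hΛ E hE
  have hg : BB (E.indicator (1 : Pl → ℝ)) := bb_ind hE
  have hg0 : ∀ x, 0 ≤ E.indicator (1 : Pl → ℝ) x := ind_nonneg E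
  have hΛq : 0 < Λ ^ (-q) := Real.rpow_pos_of_pos hΛ _
  by_cases hΛ1 : 1 ≤ Λ
  · -- nothing to prove
    have hemp : {x | ENNReal.ofReal Λ < ⨆ k : ℤ, ∫⁻ y, E.indicator 1 (x - (2 : ℝ) ^ k • y) ∂(arc c φ)} =
        ∅ := by
      ext x
      rw [Set.mem_ofPred_eq]
      simp only [mem_empty_iff_false, iff_false, not_lt]
      refine iSup_le fun k => ?_
      refine (lint_le_one E c φ k x).trans ?_
      rw [← ENNReal.ofReal_one]
      exact ENNReal.ofReal_le_ofReal hΛ1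
    rw [hemp, measure_empty]
    exact bot_le
  · have hΛ1' : Λ < 1 := not_le.mp hΛ1
    obtain ⟨u, hu1, hu2, hu3⟩ := level Λ hΛ hΛ1'
    have hpb := pow_bound Λ q u hΛ hq0.le hq2 hu3
    by_cases hu : u₀ ≤ u
    · -- (a)
      have hdom := hDOM φ τ A σ c hG hGap hA hσ0 u hu1 _ hg hg0
      have hsys := (hSYS φ τ A σ c hG hGap hA hσ0 u hu1).1
      have hN := ae_iff.mp hdom
      have hlon := hL u (KA A σ u) (fun j => τ (tm u j)) (ce c φ u) (mm τ u) E
        ((le_max_left u₁ 1).trans hu) ⟨hsys.slope, hsys.sep⟩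
        (fun j hj => ⟨(hsys.cen j hj).trans hRCf,
          (hMM φ τ A σ hG hGap hA hσ0 u j hu1 hj).2.2.2.2.1,
          (hMM φ τ A σ hG hGap hA hσ0 u j hu1 hj).2.2.2.2.2.1⟩)
        (by
          refine (KA_bound A σ hA (by linarith) u).trans ?_
          have h1 : (0 : ℝ) < (2 : ℝ) ^ (σ * u) := Real.rpow_pos_of_pos (by norm_num) _
          nlinarith) hE
      have hpos : (0 : ℝ) < (2 : ℝ) ^ (-(q * (u : ℝ))) := Real.rpow_pos_of_pos (by norm_num) _
      have hhl := hH _ hg ((2 : ℝ) ^ (-(q * (u : ℝ)))) hpos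
      have hhi := hI u Λ E hu1 hu2 hE
      refine (union4 _ _ _ _ _ hN ?_).trans (add_le_add (add_le_add hhl hhi) hlon |>.trans ?_)
      · intro x hx hxN hxH hxL
        have hxN' := not_not.mp hxN
        have hxH' : HL ρ (E.indicator 1) x ≤ ENNReal.ofReal ((2 : ℝ) ^ (-(q * (u : ℝ)))) :=
          not_lt.mp hxH
        refine ⟨?_, ?_⟩
        · exact hGD (Cf + 10) ρ _ _ x (by linarith) le_rfl hpos.le hg hxH'
        · obtain ⟨k, hk⟩ := step c φ τ u E hE Λ hΛ x hxN' hxL hx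
          refine ⟨k, ?_⟩
          unfold Sa at hk
          have h2 : (0 : ℝ) < 2 ^ u := by positivity
          rw [one_div, inv_mul_eq_div, lt_div_iff₀ h2] at hk
          have h3 : 1 ≤ Λ * (2 : ℝ) ^ u := by
            rw [zpow_neg, zpow_natCast, inv_le_iff_one_le_mul₀ h2] at hu2
            exact hu2
          have h4 : (1 : ℝ) / 8 ≤ 3 / 16 * Λ * 2 ^ u := by nlinarith
          have h5 := h4.trans hk.le
          rw [← one_div] at h5
          exact h5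
      · rw [lint_ind hE.1, ← add_mul, ← add_mul]
        rw [← ENNReal.ofReal_add (by positivity) (by positivity),
          ← ENNReal.ofReal_add (by positivity) (by positivity)]
        apply ofReal_mul_le
        have h1 : C₂ / (2 : ℝ) ^ (-(q * (u : ℝ))) = C₂ * (2 : ℝ) ^ (q * (u : ℝ)) := by
          rw [Real.rpow_neg (by norm_num), div_inv_eq_mul]
        rw [h1]
        have h2 : C₂ * (2 : ℝ) ^ (q * (u : ℝ)) ≤ C₂ * (4 * Λ ^ (-q)) :=
          mul_le_mul_of_nonneg_left hpb hC₂.le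
        have h3 : C₁ * (2 : ℝ) ^ (q * (u : ℝ)) ≤ C₁ * (4 * Λ ^ (-q)) :=
          mul_le_mul_of_nonneg_left hpb hC₁.le
        have h4 : 0 ≤ C₂ / ε * Λ ^ (-q) := by positivity
        nlinarith
    · -- (b)
      have hu' : u ≤ u₀ := (not_le.mp hu).le
      have hu2' : (2 : ℝ) ^ (-(u₀ : ℤ)) ≤ Λ := by
        refine le_trans ?_ hu2
        apply zpow_le_zpow_right₀ (by norm_num)
        omega
      have hdom := hDOM φ τ A σ c hG hGap hA hσ0 u₀ hu₀1 _ hg hg0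
      have hsys := (hSYS φ τ A σ c hG hGap hA hσ0 u₀ hu₀1).1
      have hN := ae_iff.mp hdom
      have hεΛ : 0 < ε * Λ := by positivity
      have hhl := hH _ hg (ε * Λ) hεΛ
      have hhi := hI u₀ Λ E hu₀1 hu2' hE
      have hemp : volume (∅ : Set Pl) ≤ 0 := by simp
      refine (union4 _ _ _ _ ∅ hN ?_).trans (add_le_add (add_le_add hhl hhi) hemp |>.trans ?_)
      · intro x hx hxN hxH hxL
        exfalso
        have hxN' := not_not.mp hxN
        have hxH' : HL ρ (E.indicator 1) x ≤ ENNReal.ofReal (ε * Λ) := not_lt.mp hxH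
        obtain ⟨k, hk⟩ := step c φ τ u₀ E hE Λ hΛ x hxN' hxL hx
        have h2 : (0 : ℝ) < 2 ^ u₀ := by positivity
        have hY : ∀ j ∈ Finset.range (2 ^ u₀),
            Y (τ (tm u₀ j)) (ce c φ u₀ j) (mm τ u₀ j) (1 / (2 : ℝ) ^ u₀) k (E.indicator 1) x ≤
              Λ / 32 := by
          intro j hj
          have hj' : j < 2 ^ u₀ := Finset.mem_range.mp hj
          have h3 := hHLY (τ (tm u₀ j)) (ce c φ u₀ j) (mm τ u₀ j) (1 / (2 : ℝ) ^ u₀) R ρ k
            (E.indicator 1) x (hsys.slope j hj') (hsys.cen j hj') (by positivity)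
            (by rw [div_le_one h2]; exact one_le_pow₀ (by norm_num)) (by linarith) hg hg0
          have h4 : mm τ u₀ j ≤ KA A σ u₀ := (hMM φ τ A σ hG hGap hA hσ0 u₀ j hu₀1 hj').2.2.2.2.2.1
          have h5 : (4 : ℝ) ^ (mm τ u₀ j) ≤ (4 : ℝ) ^ (KA A σ u₀) :=
            pow_le_pow_right₀ (by norm_num) h4
          have h6 : ENNReal.ofReal (Y (τ (tm u₀ j)) (ce c φ u₀ j) (mm τ u₀ j) (1 / (2 : ℝ) ^ u₀) k
              (E.indicator 1) x) ≤ ENNReal.ofReal (Λ / 32) := by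
            refine h3.trans ((mul_le_mul' (ENNReal.ofReal_le_ofReal h5) hxH').trans ?_)
            rw [← ENNReal.ofReal_mul (by positivity)]
            apply ENNReal.ofReal_le_ofReal
            have h7 : (4 : ℝ) ^ (KA A σ u₀) ≠ 0 := by positivity
            rw [hε]
            field_simp
            exact le_rfl
          exact (ENNReal.ofReal_le_ofReal_iff (by positivity)).mp h6
        have hS := Finset.sum_le_sum hY
        rw [Finset.sum_const, Finset.card_range, nsmul_eq_mul] at hS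
        push_cast at hS
        unfold Sa at hk
        rw [one_div, inv_mul_eq_div, lt_div_iff₀ h2] at hk
        have h8 : 3 / 16 * Λ * 2 ^ u₀ < 2 ^ u₀ * (Λ / 32) := by
          rw [one_div] at hS
          exact lt_of_lt_of_le hk hS
        nlinarith [mul_pos hΛ h2]
      · rw [lint_ind hE.1, add_zero, ← add_mul]
        rw [← ENNReal.ofReal_add (by positivity) (by positivity)]
        apply ofReal_mul_le
        have h1 : Λ⁻¹ ≤ Λ ^ (-q) := by
          rw [← Real.rpow_neg_one]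
          exact Real.rpow_le_rpow_of_exponent_ge hΛ hΛ1'.le (by linarith)
        have h2 : C₂ / (ε * Λ) = C₂ / ε * Λ⁻¹ := by
          field_simp
        rw [h2]
        have h3 : C₂ / ε * Λ⁻¹ ≤ C₂ / ε * Λ ^ (-q) :=
          mul_le_mul_of_nonneg_left h1 (by positivity)
        have h4 : 0 ≤ C₂ * Λ ^ (-q) := by positivity
        have h5 : 0 ≤ C₁ * Λ ^ (-q) := by positivity
        nlinarith

end Pool.Agent.Helper90.RL
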