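import Pool.Agent.Helper20.RL.St5
import Pool.Agent.Helper90.RL.M_LRW

/-!
# Module PRW of project RL (MP_cb927e_an): restricted weak type, `3 < q ^ 2 + q`
-/

set_option autoImplicit false

open MeasureTheory Set Filter Topology
open scoped ENNReal RealInnerProductSpace

namespace Pool.Agent.Helper90.RL

open Pool.Agent.Helper68.LM (Pl BB Bd Av HL ft fm DQ)
open Pool.Agent.Helper20.RG Pool.Agent.Helper20.RL

/-- module PRW -/
theorem hPRW (_hPT : StPT) (_hMEA : StMEA) (_hYB : StYB) (hMM : StMM) (hSYS : StSYS) (hGD : StGD)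
    (hDOM : StDOM) (hHLY : StHLY) (hPHI : StPHI) (hPON : StPON) : StPRW := by
  intro φ τ A σ q c hG hGap hA hσ hσq hq2 hq3
  have hq0 : 0 < q := by linarith
  have hσ0 : 0 < σ := by linarith
  set R : ℝ := ‖c‖ + |φ 0| + 3 with hR
  have hR3 : 3 ≤ R := by
    have := norm_nonneg c
    have := abs_nonneg (φ 0)
    linarith
  set Cf : ℝ := R + (2 + A ^ σ) with hCf
  have hAσ : 0 < A ^ σ := Real.rpow_pos_of_pos hA _
  have hCf1 : 1 ≤ Cf := by linarith
  have hRCf : R ≤ Cf := by linarith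
  set ρ : ℝ := 2 * (Cf + 10) with hρ
  have hρ0 : 0 < ρ := by linarith
  obtain ⟨u₁, C₁, hC₁, hL⟩ := hPON A σ q Cf hA.le hσ hσq hq2 hq3 hCf1
  obtain ⟨C₂, hC₂, hH⟩ := Pool.Agent.Helper27.LM.hHLW ρ hρ0
  obtain ⟨C₃, hC₃, hI⟩ := hPHI φ τ A σ q c hG hGap hA hσ hσq hq2
  set u₀ : ℕ := max u₁ 1 with hu₀
  have hu₀1 : 1 ≤ u₀ := le_max_right _ _
  set ε : ℝ := ((4 : ℝ) ^ (KA A σ u₀))⁻¹ / 32 with hε
  have hε0 : 0 < ε := by positivity
  refine ⟨4 * C₂ + C₃ + 4 * C₁ + C₂ / ε, by positivity, ?_⟩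
  intro Λ hΛ E hE
  have hg : BB (E.indicator (1 : Pl → ℝ)) := bb_ind hE
  have hg0 : ∀ x, 0 ≤ E.indicator (1 : Pl → ℝ) x := ind_nonneg E
  have hΛq : 0 < Λ ^ (-q) := Real.rpow_pos_of_pos hΛ _
  by_cases hΛ1 : 1 ≤ Λ
  · -- nothing to prove
    have hemp : {x | ENNReal.ofReal Λ < ⨆ k : ℤ, ∫⁻ y, E.indicator 1 (x - (2 : ℝ) ^ k • y) ∂(arc c φ)} =
        ∅ := by
      ext x
      rw [Set.mem_ofPred_eq]
      simp only [mem_empty_iff_false, iff_false, not_lt]
      refine iSup_le fun k => ?_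
      refine (lint_le_one E c φ k x).trans ?_
      rw [← ENNReal.ofReal_one]
      exact ENNReal.ofReal_le_ofReal hΛ1
    rw [hemp, measure_empty]
    exact bot_le
  · have hΛ1' : Λ < 1 := not_le.mp hΛ1
    obtain ⟨u, hu1, hu2, hu3⟩ := level Λ hΛ hΛ1'
    have hpb := pow_bound Λ q u hΛ hq0.le hq2 hu3
    by_cases hu : u₀ ≤ u
    · -- (a)
      have hdom := hDOM φ τ A σ c hG hGap hA hσ0 u hu1 _ hg hg0
      have hsys := (hSYS φ τ A σ c hG hGap hA hσ0 u hu1).1
      have hN := ae_iff.mp hdom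
      have hlon := hL u (KA A σ u) (fun j => τ (tm u j)) (ce c φ u) (mm τ u) E
        ((le_max_left u₁ 1).trans hu) ⟨hsys.slope, hsys.sep⟩
        (fun j hj => ⟨(hsys.cen j hj).trans hRCf,
          (hMM φ τ A σ hG hGap hA hσ0 u j hu1 hj).2.2.2.2.1,
          (hMM φ τ A σ hG hGap hA hσ0 u j hu1 hj).2.2.2.2.2.1⟩)
        (by
          refine (KA_bound A σ hA (by linarith) u).trans ?_
          have h1 : (0 : ℝ) < (2 : ℝ) ^ (σ * u) := Real.rpow_pos_of_pos (by norm_num) _
          nlinarith) hE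
      have hpos : (0 : ℝ) < (2 : ℝ) ^ (-(q * (u : ℝ))) := Real.rpow_pos_of_pos (by norm_num) _
      have hhl := hH _ hg ((2 : ℝ) ^ (-(q * (u : ℝ)))) hpos
      have hhi := hI u Λ E hu1 hu2 hE
      refine (union4 _ _ _ _ _ hN ?_).trans (add_le_add (add_le_add hhl hhi) hlon |>.trans ?_)
      · intro x hx hxN hxH hxL
        have hxN' := not_not.mp hxN
        have hxH' : HL ρ (E.indicator 1) x ≤ ENNReal.ofReal ((2 : ℝ) ^ (-(q * (u : ℝ)))) :=
          not_lt.mp hxH
        refine ⟨?_, ?_⟩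
        · exact hGD (Cf + 10) ρ _ _ x (by linarith) le_rfl hpos.le hg hxH'
        · obtain ⟨k, hk⟩ := step c φ τ u E hE Λ hΛ x hxN' hxL hx
          refine ⟨k, ?_⟩
          unfold Sa at hk
          have h2 : (0 : ℝ) < 2 ^ u := by positivity
          rw [one_div, inv_mul_eq_div, lt_div_iff₀ h2] at hk
          have h3 : 1 ≤ Λ * (2 : ℝ) ^ u := by
            rw [zpow_neg, zpow_natCast, inv_le_iff_one_le_mul₀ h2] at hu2
            exact hu2
          have h4 : (1 : ℝ) / 8 ≤ 3 / 16 * Λ * 2 ^ u := by nlinarith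
          have h5 := h4.trans hk.le
          rw [← one_div] at h5
          exact h5
      · rw [lint_ind hE.1, ← add_mul, ← add_mul]
        rw [← ENNReal.ofReal_add (by positivity) (by positivity),
          ← ENNReal.ofReal_add (by positivity) (by positivity)]
        apply ofReal_mul_le
        have h1 : C₂ / (2 : ℝ) ^ (-(q * (u : ℝ))) = C₂ * (2 : ℝ) ^ (q * (u : ℝ)) := by
          rw [Real.rpow_neg (by norm_num), div_inv_eq_mul]
        rw [h1]
        have h2 : C₂ * (2 : ℝ) ^ (q * (u : ℝ)) ≤ C₂ * (4 * Λ ^ (-q)) :=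
          mul_le_mul_of_nonneg_left hpb hC₂.le
        have h3 : C₁ * (2 : ℝ) ^ (q * (u : ℝ)) ≤ C₁ * (4 * Λ ^ (-q)) :=
          mul_le_mul_of_nonneg_left hpb hC₁.le
        have h4 : 0 ≤ C₂ / ε * Λ ^ (-q) := by positivity
        nlinarith
    · -- (b)
      have hu' : u ≤ u₀ := (not_le.mp hu).le
      have hu2' : (2 : ℝ) ^ (-(u₀ : ℤ)) ≤ Λ := by
        refine le_trans ?_ hu2
        apply zpow_le_zpow_right₀ (by norm_num)
        omega
      have hdom := hDOM φ τ A σ c hG hGap hA hσ0 u₀ hu₀1 _ hg hg0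
      have hsys := (hSYS φ τ A σ c hG hGap hA hσ0 u₀ hu₀1).1
      have hN := ae_iff.mp hdom
      have hεΛ : 0 < ε * Λ := by positivity
      have hhl := hH _ hg (ε * Λ) hεΛ
      have hhi := hI u₀ Λ E hu₀1 hu2' hE
      have hemp : volume (∅ : Set Pl) ≤ 0 := by simp
      refine (union4 _ _ _ _ ∅ hN ?_).trans (add_le_add (add_le_add hhl hhi) hemp |>.trans ?_)
      · intro x hx hxN hxH hxL
        exfalso
        have hxN' := not_not.mp hxN
        have hxH' : HL ρ (E.indicator 1) x ≤ ENNReal.ofReal (ε * Λ) := not_lt.mp hxH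
        obtain ⟨k, hk⟩ := step c φ τ u₀ E hE Λ hΛ x hxN' hxL hx
        have h2 : (0 : ℝ) < 2 ^ u₀ := by positivity
        have hY : ∀ j ∈ Finset.range (2 ^ u₀),
            Y (τ (tm u₀ j)) (ce c φ u₀ j) (mm τ u₀ j) (1 / (2 : ℝ) ^ u₀) k (E.indicator 1) x ≤
              Λ / 32 := by
          intro j hj
          have hj' : j < 2 ^ u₀ := Finset.mem_range.mp hj
          have h3 := hHLY (τ (tm u₀ j)) (ce c φ u₀ j) (mm τ u₀ j) (1 / (2 : ℝ) ^ u₀) R ρ k
            (E.indicator 1) x (hsys.slope j hj') (hsys.cen j hj') (by positivity)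
            (by rw [div_le_one h2]; exact one_le_pow₀ (by norm_num)) (by linarith) hg hg0
          have h4 : mm τ u₀ j ≤ KA A σ u₀ := (hMM φ τ A σ hG hGap hA hσ0 u₀ j hu₀1 hj').2.2.2.2.2.1
          have h5 : (4 : ℝ) ^ (mm τ u₀ j) ≤ (4 : ℝ) ^ (KA A σ u₀) :=
            pow_le_pow_right₀ (by norm_num) h4
          have h6 : ENNReal.ofReal (Y (τ (tm u₀ j)) (ce c φ u₀ j) (mm τ u₀ j) (1 / (2 : ℝ) ^ u₀) k
              (E.indicator 1) x) ≤ ENNReal.ofReal (Λ / 32) := by
            refine h3.trans ((mul_le_mul' (ENNReal.ofReal_le_ofReal h5) hxH').trans ?_)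
            rw [← ENNReal.ofReal_mul (by positivity)]
            apply ENNReal.ofReal_le_ofReal
            have h7 : (4 : ℝ) ^ (KA A σ u₀) ≠ 0 := by positivity
            rw [hε]
            field_simp
            exact le_rfl
          exact (ENNReal.ofReal_le_ofReal_iff (by positivity)).mp h6
        have hS := Finset.sum_le_sum hY
        rw [Finset.sum_const, Finset.card_range, nsmul_eq_mul] at hS
        push_cast at hS
        unfold Sa at hk
        rw [one_div, inv_mul_eq_div, lt_div_iff₀ h2] at hk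
        have h8 : 3 / 16 * Λ * 2 ^ u₀ < 2 ^ u₀ * (Λ / 32) := by
          rw [one_div] at hS
          exact lt_of_lt_of_le hk hS
        nlinarith [mul_pos hΛ h2]
      · rw [lint_ind hE.1, add_zero, ← add_mul]
        rw [← ENNReal.ofReal_add (by positivity) (by positivity)]
        apply ofReal_mul_le
        have h1 : Λ⁻¹ ≤ Λ ^ (-q) := by
          rw [← Real.rpow_neg_one]
          exact Real.rpow_le_rpow_of_exponent_ge hΛ hΛ1'.le (by linarith)
        have h2 : C₂ / (ε * Λ) = C₂ / ε * Λ⁻¹ := by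
          field_simp
        rw [h2]
        have h3 : C₂ / ε * Λ⁻¹ ≤ C₂ / ε * Λ ^ (-q) :=
          mul_le_mul_of_nonneg_left h1 (by positivity)
        have h4 : 0 ≤ C₂ * Λ ^ (-q) := by positivity
        have h5 : 0 ≤ C₁ * Λ ^ (-q) := by positivity
        nlinarith

end Pool.Agent.Helper90.RL
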