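import Pool.Agent.Helper20.RL.St4

/-!
# Module PCT of project RL (MP_cb927e_an): one class
-/

set_option autoImplicit false

open MeasureTheory Set Filter Topology
open scoped ENNReal RealInnerProductSpace

namespace Pool.Agent.Helper90.RL

open Pool.Agent.Helper68.LM (Pl BB Bd Av HL ft fm DQ)
open Pool.Agent.Helper20.RG Pool.Agent.Helper20.RL

/-- choice of `γ` -/
theorem pct_gamma (σ q : ℝ) (h1 : 1 < σ) (h2 : σ < q) (h3 : q < 2) (h4 : 3 < q ^ 2 + q) :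
    ∃ γ : ℝ, Ex σ q γ := by
  have hq : 0 < q := by linarith
  set g : ℝ := (q ^ 2 + q - 3) / (2 * q) with hg
  have hg0 : 0 < g := by rw [hg]; apply div_pos <;> linarith
  have hgq : 2 * q * g = q ^ 2 + q - 3 := by rw [hg]; field_simp
  set δ : ℝ := min ((q - 1) / 2) g with hδ
  have hδ0 : 0 < δ := lt_min (by linarith) hg0
  have hδ1 : δ ≤ (q - 1) / 2 := min_le_left _ _
  have hδ2 : δ ≤ g := min_le_right _ _
  refine ⟨q - 1 - δ, h1, h2, h3, by linarith, by linarith, ?_⟩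
  have h5 : δ * (3 - 2 * q) < q ^ 2 + q - 3 := by
    have h6 : δ * (3 - 2 * q) < δ * 1 := mul_lt_mul_of_pos_left (by linarith) hδ0
    have h7 : g ≤ 2 * q * g := by nlinarith
    linarith
  have h8 : 2 + (q - 1 - δ) - 3 * (q - 1 - δ) / (2 * q) =
      (2 * q * (2 + (q - 1 - δ)) - 3 * (q - 1 - δ)) / (2 * q) := by
    field_simp
  rw [h8, div_lt_iff₀ (by positivity)]
  nlinarith

/-- the ladder -/
theorem pct_lad (hLLM : StLLM) (u b l : ℕ) (hu : 1 ≤ u) (hl : l < 16 * u) :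
    lad u (16 * u * b + l + 1) < lad u (16 * u * b + l + 1 + 1) ∧
    lad u (16 * u * b + l + 1 + 1) - lad u (16 * u * b + l + 1) ≤ 1025 * (u : ℤ) ^ 2 * 2 ^ b := by
  obtain ⟨-, -, L3, -, L5, -⟩ := hLLM u hu
  constructor
  · have h1 := L3 b l hl.le
    have h2 := L3 b (l + 1) hl
    have h3 : 16 * u * b + l + 1 + 1 = 16 * u * b + (l + 1) + 1 := by ring
    rw [h3, h1, h2]
    unfold om
    have h4 : 2 ^ b * (1024 * u ^ 2 + 64 * u * l) < 2 ^ b * (1024 * u ^ 2 + 64 * u * (l + 1)) := by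
      have h5 : 0 < 2 ^ b := by positivity
      have h6 : 1024 * u ^ 2 + 64 * u * l < 1024 * u ^ 2 + 64 * u * (l + 1) := by nlinarith
      exact (Nat.mul_lt_mul_left h5).mpr h6
    exact_mod_cast h4
  · have h5 := L5 b l hl
    have h6 : (64 : ℤ) * u * 2 ^ b ≤ 1025 * (u : ℤ) ^ 2 * 2 ^ b := by
      have h9 : (1 : ℤ) ≤ u := by exact_mod_cast hu
      have h7 : (0 : ℤ) < 2 ^ b := by positivity
      have h8 : 64 * (u : ℤ) ≤ 1025 * (u : ℤ) ^ 2 := by nlinarith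
      exact mul_le_mul_of_nonneg_right h8 h7.le
    exact h5.trans h6

theorem pct_lad0 (hLLM : StLLM) (u : ℕ) (hu : 1 ≤ u) :
    lad u 0 < lad u (0 + 1) ∧ lad u (0 + 1) - lad u 0 ≤ 1025 * (u : ℤ) ^ 2 * 2 ^ 0 := by
  obtain ⟨L1, -, L3, L4, -⟩ := hLLM u hu
  constructor
  · have h2 := L3 0 0 (by omega)
    have h3 : 16 * u * 0 + 0 + 1 = 0 + 1 := by ring
    rw [h3] at h2
    rw [L1, h2]
    have h4 : (0 : ℤ) ≤ (om u 0 0 : ℤ) := Int.natCast_nonneg _
    have h5 : (1 : ℤ) ≤ u := by exact_mod_cast hu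
    linarith
  · rw [pow_zero, mul_one]
    exact L4

/-- summation -/
theorem pct_sum (N K : ℕ) (v : ℕ → ℝ≥0∞) (V : ℕ → ℕ → ℝ≥0∞) (U : ℕ → ℝ≥0∞) (a W M : ℝ)
    (vF : ℝ≥0∞) (h1 : ∀ k < K, v k ≤ ENNReal.ofReal a * ∑ j ∈ Finset.range N, V k j)
    (h2 : ∀ j < N, ∑ k ∈ Finset.range K, V k j ≤ ENNReal.ofReal W * U j)
    (h3 : ∑ j ∈ Finset.range N, U j ≤ ENNReal.ofReal M * vF) (ha : 0 ≤ a) (hW : 0 ≤ W) :
    ∑ k ∈ Finset.range K, v k ≤ ENNReal.ofReal (a * W * M) * vF := by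
  calc ∑ k ∈ Finset.range K, v k
      ≤ ∑ k ∈ Finset.range K, ENNReal.ofReal a * ∑ j ∈ Finset.range N, V k j :=
        Finset.sum_le_sum fun k hk => h1 k (Finset.mem_range.mp hk)
    _ = ENNReal.ofReal a * ∑ j ∈ Finset.range N, ∑ k ∈ Finset.range K, V k j := by
        rw [← Finset.mul_sum, Finset.sum_comm]
    _ ≤ ENNReal.ofReal a * ∑ j ∈ Finset.range N, ENNReal.ofReal W * U j := by
        gcongr with j hj
        exact h2 j (Finset.mem_range.mp hj)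
    _ = ENNReal.ofReal a * (ENNReal.ofReal W * ∑ j ∈ Finset.range N, U j) := by
        rw [← Finset.mul_sum]
    _ ≤ ENNReal.ofReal a * (ENNReal.ofReal W * (ENNReal.ofReal M * vF)) := by gcongr
    _ = ENNReal.ofReal (a * W * M) * vF := by
        rw [ENNReal.ofReal_mul (mul_nonneg ha hW), ENNReal.ofReal_mul ha]
        ring

theorem pct_exp (C₁ C q ε₁ ε : ℝ) (u : ℕ) (h1 : C₁ ≤ C) (h2 : ε ≤ ε₁) (h0 : 0 ≤ C₁) :
    C₁ * (2 : ℝ) ^ ((q - ε₁) * u) ≤ C * (2 : ℝ) ^ ((q - ε) * u) := by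
  have hu : (0 : ℝ) ≤ u := Nat.cast_nonneg u
  have h3 : (2 : ℝ) ^ ((q - ε₁) * u) ≤ (2 : ℝ) ^ ((q - ε) * u) := by
    apply Real.rpow_le_rpow_of_exponent_le (by norm_num)
    nlinarith
  have h4 : (0 : ℝ) ≤ (2 : ℝ) ^ ((q - ε₁) * u) := by positivity
  exact mul_le_mul h1 h3 h4 (h0.trans h1)

theorem pct_mul_le {a b : ℝ} {v w : ℝ≥0∞} (h : a ≤ b) (hw : w ≤ ENNReal.ofReal a * v) :
    w ≤ ENNReal.ofReal b * v := by
  refine hw.trans ?_
  gcongr

/-- module PCT -/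
theorem hPCT (hLLM : StLLM) (hPCI : StPCI) (hLPA : StLPA) (hPPB : StPPB) (hLXM : StLXM)
    (hPXR : StPXR) (hPNA : StPNA) (hPNB : StPNB) (hPNC : StPNC) (hPND : StPND) : StPCT := by
  intro A σ q Cf hA hσ hσq hq2 hq3 hCf
  obtain ⟨γ, hEx⟩ := pct_gamma σ q hσ hσq hq2 hq3
  have hγ0 : 0 < γ := hEx.2.2.2.1
  have hγq : γ < q - 1 := hEx.2.2.2.2.1
  obtain ⟨κ, hκ, hPCIk⟩ := hPCI
  obtain ⟨C₄, hC₄, hXR⟩ := hPXR
  obtain ⟨CA, εA, hCA, hεA, hNA⟩ := hPNA q γ hγq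
  obtain ⟨uB, hNB⟩ := hPNB q (by linarith) hq2
  obtain ⟨CC, εC, hCC, hεC, hNC⟩ := hPNC A σ q γ κ Cf hA hEx hκ hCf
  obtain ⟨CD, εD, hCD, hεD, hND⟩ := hPND A σ q γ κ C₄ Cf hA hEx hκ hC₄ hCf
  obtain ⟨u₁, hu₁⟩ := pow_unbounded_of_one_lt Cf (show (1 : ℝ) < 2 by norm_num)
  refine ⟨max uB u₁, CA + CC + CD, min εA (min εC εD), by positivity,
    lt_min hεA (lt_min hεC hεD), ?_⟩
  intro u K τ s c m F η m₁ hu hu2 hSlo hcm hK hF hCtl hNm hτ
  have huB : uB ≤ u := (le_max_left _ _).trans hu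
  have huu₁ : u₁ ≤ u := (le_max_right _ _).trans hu
  have hu1 : 1 ≤ u := by omega
  have hCfu : Cf ≤ (2 : ℝ) ^ u :=
    hu₁.le.trans (pow_le_pow_right₀ (by norm_num) huu₁)
  have hη0 : 0 < η := hNm.1
  have hη1 : η ≤ 1 := hNm.2.1
  have hm₁0 : 0 < m₁ := lt_of_lt_of_le (by positivity) hNm.2.2.2.1
  set D : ℝ := 8 * (2 : ℝ) ^ (-(q * (u : ℝ))) with hD
  have hD0 : 0 < D := by positivity
  have h2u : (0 : ℝ) < (2 : ℝ) ^ u := by positivity
  have hK3 : (K : ℝ) ≤ (2 : ℝ) ^ (3 * u) := by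
    have h1 : (2 : ℝ) ^ (σ * (u : ℝ)) ≤ (2 : ℝ) ^ (2 * (u : ℝ)) := by
      apply Real.rpow_le_rpow_of_exponent_le (by norm_num)
      have : (0 : ℝ) ≤ u := Nat.cast_nonneg u
      nlinarith
    have h2 : (2 : ℝ) ^ (2 * (u : ℝ)) = (2 : ℝ) ^ (2 * u) := by
      rw [← Real.rpow_natCast]
      push_cast
      rfl
    rw [h2] at h1
    calc (K : ℝ) ≤ Cf * (2 : ℝ) ^ (σ * (u : ℝ)) := hK
      _ ≤ (2 : ℝ) ^ u * (2 : ℝ) ^ (2 * u) := mul_le_mul hCfu h1 (by positivity) h2u.le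
      _ = (2 : ℝ) ^ (3 * u) := by rw [← pow_add]; congr 1; ring
  have hK4 : K ≤ 2 ^ (4 * u) := by
    have h1 : (K : ℝ) ≤ (2 : ℝ) ^ (4 * u) :=
      hK3.trans (pow_le_pow_right₀ (by norm_num) (by omega))
    exact_mod_cast h1
  -- union bound
  have hUsub : ∀ j : ℕ, ∀ k < K, volume (F ∩ UU F (s j) (m j) u η τ (k : ℤ)) ≤
      volume (F ∩ ⋃ k ∈ Ico (0 : ℤ) K, UU F (s j) (m j) u η τ k) := by
    intro j k hk
    apply measure_mono
    apply inter_subset_inter_right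
    intro y hy
    rw [mem_iUnion₂]
    exact ⟨(k : ℤ), ⟨by positivity, by exact_mod_cast hk⟩, hy⟩
  have hB1 : ∀ j < 2 ^ u, ∑ k ∈ Finset.range K, volume (F ∩ UU F (s j) (m j) u η τ (k : ℤ)) ≤
      ENNReal.ofReal (K : ℝ) * volume (F ∩ ⋃ k ∈ Ico (0 : ℤ) K, UU F (s j) (m j) u η τ k) := by
    intro j _
    refine (Finset.sum_le_sum fun k hk => hUsub j k (Finset.mem_range.mp hk)).trans ?_
    rw [Finset.sum_const, Finset.card_range, nsmul_eq_mul, ENNReal.ofReal_natCast]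
  have hLX : ∀ k < K, volume {x | m₁ ≤ ({j : ℕ | j < 2 ^ u ∧
        Hit (s j) (c j) (m j) u k (CU F (s j) (m j) u η τ k) x}.ncard : ℝ)} ≤
      ENNReal.ofReal (70 / (m₁ * η)) * ∑ j ∈ Finset.range (2 ^ u),
        volume (F ∩ UU F (s j) (m j) u η τ (k : ℤ)) := by
    intro k _
    exact hLXM u τ k s c m F η m₁ hu1 hτ hF hη0 hm₁0
  have ha0 : 0 ≤ 70 / (m₁ * η) := by positivity
  -- case of small `b`
  have hsmall : ∀ b : ℕ, (b : ℝ) ≤ γ * u → τ ≤ Mt u → lad u τ < lad u (τ + 1) →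
      lad u (τ + 1) - lad u τ ≤ 1025 * (u : ℤ) ^ 2 * 2 ^ b →
      ∑ k ∈ Finset.range K, volume {x | m₁ ≤ ({j : ℕ | j < 2 ^ u ∧
        Hit (s j) (c j) (m j) u k (CU F (s j) (m j) u η τ k) x}.ncard : ℝ)} ≤
        ENNReal.ofReal ((CA + CC + CD) * (2 : ℝ) ^ ((q - min εA (min εC εD)) * u)) * volume F := by
    intro b hb hτM hl1 hl2
    have h1 := pct_sum (2 ^ u) K _ (fun k j => volume (F ∩ UU F (s j) (m j) u η τ (k : ℤ)))
      (fun j => volume (F ∩ ⋃ k ∈ Ico (0 : ℤ) K, UU F (s j) (m j) u η τ k))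
      (70 / (m₁ * η)) (10 ^ 6 * (u : ℝ) ^ 5 * 2 ^ b) ((2 : ℝ) ^ u) (volume F) hLX
      (fun j _ => hLPA F (s j) (m j) u η τ b K hF hu1 hη0 hτM hK4 hl1 hl2)
      (by
        refine (Finset.sum_le_sum fun j _ => measure_mono inter_subset_left).trans ?_
        rw [Finset.sum_const, Finset.card_range, nsmul_eq_mul]
        apply le_of_eq
        congr 1
        rw [ENNReal.ofReal_pow (by norm_num)]
        push_cast
        simp)
      ha0 (by positivity)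
    refine pct_mul_le ?_ h1
    refine (hNA u b η m₁ hu1 hNm hb).trans ?_
    exact pct_exp _ _ _ _ _ _ (by linarith) (min_le_left _ _) hCA.le
  rcases Nat.eq_zero_or_pos τ with hτ0 | hτ0
  · subst hτ0
    obtain ⟨g1, g2⟩ := pct_lad0 hLLM u hu1
    exact hsmall 0 (by push_cast; positivity) (Nat.zero_le _) g1 g2
  · -- τ = 16 u b + l + 1
    obtain ⟨b, l, hl, hτe⟩ : ∃ b l : ℕ, l < 16 * u ∧ τ = 16 * u * b + l + 1 := by
      refine ⟨(τ - 1) / (16 * u), (τ - 1) % (16 * u), Nat.mod_lt _ (by omega), ?_⟩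
      have := Nat.div_add_mod (τ - 1) (16 * u)
      omega
    obtain ⟨g1, g2⟩ := pct_lad hLLM u b l hu1 hl
    rw [← hτe] at g1 g2
    have hblM : 16 * u * b + l ≤ Mt u := by omega
    by_cases hbγ : (b : ℝ) ≤ γ * u
    · have hbu : b ≤ u := by
        have h1 : (b : ℝ) ≤ u := by
          have : (0 : ℝ) ≤ u := Nat.cast_nonneg u
          nlinarith
        exact_mod_cast h1
      have hτM : τ ≤ Mt u := by
        unfold Mt
        rw [hτe]
        have h1 : 16 * u * b ≤ 16 * u * u := Nat.mul_le_mul_left _ hbu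
        have h2 : 16 * u * (3 * u + 1) = 16 * u * u + 16 * u * (2 * u) + 16 * u := by ring
        rw [h2]
        omega
      exact hsmall b hbγ hτM g1 g2
    · have hbγ' : γ * u < b := not_le.mp hbγ
      have hb1 : 1 ≤ b := by
        have h1 : (0 : ℝ) < b := lt_of_le_of_lt (by positivity) hbγ'
        exact_mod_cast h1
      obtain ⟨n1, n2, n3⟩ := hNB u η m₁ huB hu1 hNm
      rw [← hD] at n1 n2 n3
      have hB2 : ∀ j < 2 ^ u, ∑ k ∈ Finset.range K,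
          volume (F ∩ UU F (s j) (m j) u η τ (k : ℤ)) ≤
          ENNReal.ofReal (10 ^ 6 * (u : ℝ) ^ 5 * 2 ^ b) *
            volume (F ∩ ⋃ k ∈ Ico (0 : ℤ) K, UU F (s j) (m j) u η τ k) := by
        intro j hj
        by_cases hτM : τ ≤ Mt u
        · exact hLPA F (s j) (m j) u η τ b K hF hu1 hη0 hτM hK4 g1 g2
        · refine (hB1 j hj).trans ?_
          have h1 : (K : ℝ) ≤ 10 ^ 6 * (u : ℝ) ^ 5 * 2 ^ b := by
            have h2 : 3 * u ≤ b := by
              by_contra hcon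
              have h3 : b + 1 ≤ 3 * u := by omega
              apply hτM
              rw [hτe]
              unfold Mt
              have h4 : 16 * u * (b + 1) ≤ 16 * u * (3 * u) := Nat.mul_le_mul_left _ h3
              have h5 : 16 * u * (b + 1) = 16 * u * b + 16 * u := by ring
              have h6 : 16 * u * (3 * u + 1) = 16 * u * (3 * u) + 16 * u := by ring
              rw [h6]
              omega
            have h3 : (2 : ℝ) ^ (3 * u) ≤ (2 : ℝ) ^ b := pow_le_pow_right₀ (by norm_num) h2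
            have h4 : (1 : ℝ) ≤ 10 ^ 6 * (u : ℝ) ^ 5 := by
              have h5 : (1 : ℝ) ≤ (u : ℝ) := by exact_mod_cast hu1
              have h6 : (1 : ℝ) ≤ (u : ℝ) ^ 5 := one_le_pow₀ h5
              linarith
            have h5 : (0 : ℝ) < (2 : ℝ) ^ b := by positivity
            nlinarith
          gcongr
      have hB3 : ∀ j < 2 ^ u, ∑ k ∈ Finset.range K,
          volume (F ∩ UU F (s j) (m j) u η τ (k : ℤ)) ≤
          ENNReal.ofReal (min (10 ^ 6 * (u : ℝ) ^ 5 * 2 ^ b) (K : ℝ)) *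
            volume (F ∩ ⋃ k ∈ Ico (0 : ℤ) K, UU F (s j) (m j) u η τ k) := by
        intro j hj
        rcases min_choice (10 ^ 6 * (u : ℝ) ^ 5 * 2 ^ b) (K : ℝ) with h | h
        · rw [h]; exact hB2 j hj
        · rw [h]; exact hB1 j hj
      have hW0 : (0 : ℝ) ≤ min (10 ^ 6 * (u : ℝ) ^ 5 * 2 ^ b) (K : ℝ) :=
        le_min (by positivity) (by positivity)
      have hPB := hPPB κ hκ hPCIk u b l K A σ s m F D η hu2 hb1 hl hblM hA hSlo
        (fun j hj => (hcm j hj).2) hF hCtl n2 n1 hη1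
      rw [← hτe] at hPB
      by_cases hfew : m₁ < 1000 ∨ m₁ < 200 * ns u b A σ
      · have h1 := pct_sum (2 ^ u) K _ (fun k j => volume (F ∩ UU F (s j) (m j) u η τ (k : ℤ)))
          (fun j => volume (F ∩ ⋃ k ∈ Ico (0 : ℤ) K, UU F (s j) (m j) u η τ k))
          (70 / (m₁ * η)) _ _ (volume F) hLX hB3 hPB ha0 hW0
        refine pct_mul_le ?_ h1
        refine (hNC u b K η m₁ hu1 hNm hbγ' hK hfew).trans ?_
        exact pct_exp _ _ _ _ _ _ (by linarith) ((min_le_right _ _).trans (min_le_left _ _)) hCC.le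
      · rw [not_or, not_lt, not_lt] at hfew
        have hXR' : ∀ k < K, volume {x | m₁ ≤ ({j : ℕ | j < 2 ^ u ∧
            Hit (s j) (c j) (m j) u k (CU F (s j) (m j) u η τ k) x}.ncard : ℝ)} ≤
            ENNReal.ofReal (((1 / 2) ^ (16 * u) / (10752 * 2 ^ u * D / η) +
              u * C₄ * ns u b A σ * (10752 * 2 ^ u * D / η) / m₁ ^ 3) * (42 / η)) *
            ∑ j ∈ Finset.range (2 ^ u), volume (F ∩ UU F (s j) (m j) u η τ (k : ℤ)) := by
          intro k _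
          have h2 := hXR u b l k A σ s c m F D η m₁ hu2 hb1 hl hblM hA hSlo
            (fun j hj => ⟨(hcm j hj).1.trans hCfu, (hcm j hj).2⟩) hF hCtl hD0 hη0 hfew.1 hfew.2 n3
          rw [← hτe] at h2
          exact h2
        have hns : 0 ≤ ns u b A σ := by
          unfold ns
          positivity
        have hC₄0 : 0 ≤ C₄ := by linarith
        have h1 := pct_sum (2 ^ u) K _ (fun k j => volume (F ∩ UU F (s j) (m j) u η τ (k : ℤ)))
          (fun j => volume (F ∩ ⋃ k ∈ Ico (0 : ℤ) K, UU F (s j) (m j) u η τ k))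
          _ _ _ (volume F) hXR' hB3 hPB (by positivity) hW0
        refine pct_mul_le ?_ h1
        refine (hND u b K η m₁ hu1 hNm hbγ' hK hfew.1 hfew.2).trans ?_
        exact pct_exp _ _ _ _ _ _ (by linarith) ((min_le_right _ _).trans (min_le_right _ _)) hCD.le

end Pool.Agent.Helper90.RL
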